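import Pool.Agent.Q291.MK.Stm2

/-!
# Job RB of project MK: one step, crude bounds
-/

namespace Pool.Agent.Q146.MK

open Pool.Agent.Q291.MK Filter Topology

lemma law_le_one {a : ℕ → ℝ} (ha : Law a) (k : ℕ) : a k ≤ 1 :=
  le_hasSum ha.one k (fun j _ => ha.nn j)

lemma law_zero_of_one {a : ℕ → ℝ} (ha : Law a) (h0 : 1 ≤ a 0) (k : ℕ) (hk : k ≠ 0) : a k = 0 := by
  have h1 : ∑ i ∈ ({0, k} : Finset ℕ), a i ≤ 1 := sum_le_hasSum _ (fun j _ => ha.nn j) ha.one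
  rw [Finset.sum_pair (Ne.symm hk)] at h1
  have := ha.nn k
  linarith

lemma W_zero_of_one {a : ℕ → ℝ} (ha : Law a) (h0 : 1 ≤ a 0) : W a = 0 := by
  unfold W
  have : E a (fun k => I k * (k / (k + 3))) = 0 := by
    unfold E
    have : (fun k : ℕ => a k * (I k * ((k:ℝ) / (k + 3)))) = fun _ => 0 := by
      funext k
      rcases Nat.eq_zero_or_pos k with rfl | hk
      · simp
      · rw [law_zero_of_one ha h0 k hk.ne']; ring
    rw [this, tsum_zero]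
  rw [this, zero_div]

theorem t_RB : P_TLAW → P_SLAW → P_CRUDE → P_WL → P_RB := by
  intro hT hS hC hW a ha
  have hb : AM (T a) := (hT a ha).1
  have hc : AM (T (T a)) := (hT _ hb).1
  have hd : AM (S (T (T a))) := (hS _ hc).1
  have he : AM (S (S (T (T a)))) := (hS _ hd).1
  obtain ⟨a1, a2, a3, a4, a5, a6, -, -⟩ := hC a ha
  obtain ⟨b1, b2, b3, b4, b5, b6, -, -⟩ := hC _ hb
  obtain ⟨c1, c2, c3, c4, c5, c6, c7, c8⟩ := hC _ hc
  obtain ⟨d1, d2, d3, d4, d5, d6, d7, d8⟩ := hC _ hd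
  obtain ⟨wa1, wa2, wa3, wa4, wa5, wa6⟩ := hW a ha
  obtain ⟨wb1, wb2, wb3, wb4, wb5, wb6⟩ := hW _ hb
  obtain ⟨wc1, wc2, wc3, wc4, wc5, wc6⟩ := hW _ hc
  obtain ⟨wd1, wd2, wd3, wd4, wd5, wd6⟩ := hW _ hd
  have ha0 := law_le_one ha.toLaw 0
  have hb0 := law_le_one hb.toLaw 0
  have hWW : W a ^ 4 ≤ W (R a) := by
    have h1 : W (T (T a)) = W a ^ 4 := by rw [wb4, wa4]; ring
    have h2 : W (R a) = W (S (S (T (T a)))) := rfl
    rw [h2, ← h1]
    exact wc5.trans wd5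
  have hm1 : mean (T a) ≤ mean a / 2 := by linarith
  have hm2 : mean (T (T a)) ≤ mean a / 4 := by linarith
  have hmR : mean (R a) = 4 * mean (T (T a)) := by
    have : mean (R a) = mean (S (S (T (T a)))) := rfl
    rw [this, d7, c7]; ring
  refine ⟨he, ?_, ?_, ?_, hWW, ?_⟩
  · rw [hmR]; linarith
  · rw [hmR]
    have h1 : mean (T a) ^ 2 ≤ (2 / 5 * mean a ^ 2) ^ 2 := pow_le_pow_left₀ b1 a5 2
    nlinarith
  · have h0 : q2 (R a) = q2 (S (S (T (T a)))) := rfl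
    rw [h0, d8, c8, c7]
    have h1 : mean (T (T a)) ^ 2 ≤ (mean a / 4) ^ 2 := pow_le_pow_left₀ c1 hm2 2
    have h2 : mean (T a) ^ 2 ≤ (mean a / 2) ^ 2 := pow_le_pow_left₀ b1 hm1 2
    nlinarith
  · intro h
    by_contra hcon
    push Not at hcon
    have h1 : W (R a) = 0 := W_zero_of_one he.toLaw hcon
    have h2 := wa6 h
    have h3 : 0 < W a ^ 4 := by positivity
    linarith

end Pool.Agent.Q146.MK
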