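import Pool.Agent.Q291.MK.Stm2
import Pool.Agent.Q146.MK.RB

/-!
# Job ORB of project MK: the orbit of the Wilson action
-/

namespace Pool.Agent.Q146.MK

open Pool.Agent.Q291.MK Filter Topology

lemma q2_eq {a : ℕ → ℝ} (ha : AM a) : q2 a = vr a + mean a ^ 2 := by
  have h1 : vr a = E a (fun k => ((k:ℝ) ^ 2 - (2 * mean a) * (k:ℝ)) + mean a ^ 2) := by
    unfold vr
    congr 1
    funext k
    ring
  have p1 : PB (fun k => (k:ℝ) ^ 2) := PB.id.pow 2
  have p2 : PB (fun k => (2 * mean a) * (k:ℝ)) := (PB.const _).mul PB.id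
  rw [h1, ha.E_add (p1.sub p2) (PB.const _), ha.E_sub p1 p2, E_const_mul, ha.toLaw.E_const]
  have h2 : E a (fun k => (k:ℝ)) = mean a := rfl
  rw [h2]
  unfold q2
  ring

lemma mean_nonneg' {a : ℕ → ℝ} (ha : Law a) : 0 ≤ mean a := by
  unfold mean E
  exact tsum_nonneg fun k => mul_nonneg (ha.nn k) (Nat.cast_nonneg k)

lemma vr_nonneg' {a : ℕ → ℝ} (ha : Law a) : 0 ≤ vr a := by
  unfold vr E
  exact tsum_nonneg fun k => mul_nonneg (ha.nn k) (sq_nonneg _)

lemma pois_zero_lt {m : ℝ} (hm : 0 < m) : pois m 0 < 1 := by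
  unfold pois
  simp [hm]

theorem t_ORB : P_RB → P_ST → P_POIS → P_WEAK → P_WW → P_SEQ → P_ORB := by
  intro hR hST hP hWk hWW hSEQ
  obtain ⟨C3, C8, M0, D0, hC3, hC8, hM0, hD0, hweak⟩ := hWk
  obtain ⟨D1, M1, hD1, hM1, hww⟩ := hWW C3 C8
  obtain ⟨D, hDdef⟩ : ∃ D, D = max D0 D1 := ⟨_, rfl⟩
  obtain ⟨M, hMdef⟩ : ∃ M, M = max (max M0 M1) (10 + 2 * D) := ⟨_, rfl⟩
  have hD0' : D0 ≤ D := hDdef ▸ le_max_left _ _
  have hD1' : D1 ≤ D := hDdef ▸ le_max_right _ _
  have hDp : 0 < D := hD0.trans_le hD0'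
  have hM0' : M0 ≤ M := hMdef ▸ (le_max_left _ _).trans (le_max_left _ _)
  have hM1' : M1 ≤ M := hMdef ▸ (le_max_right _ _).trans (le_max_left _ _)
  have hMD : 10 + 2 * D ≤ M := hMdef ▸ le_max_right _ _
  have hM10 : 10 ≤ M := hM0.trans hM0'
  refine ⟨C3, C8, M, D, 2 * (M ^ 2 + M), hC3, by linarith, hDp, hMD, by nlinarith, ?_⟩
  intro m hm n
  obtain ⟨pAM, pm, pv, pk, p8, -⟩ := hP m hm.le
  have p0 : pois m 0 < 1 := pois_zero_lt hm
  have itS : ∀ n, R^[n + 1] (pois m) = R (R^[n] (pois m)) :=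
    fun n => Function.iterate_succ_apply' R n _
  obtain ⟨sAM, s0, smono, sq, sW, -, -, -⟩ := hST _ pAM p0
  have hanti : Antitone (fun n => mean (R^[n] (pois m))) := antitone_nat_of_succ_le smono
  have hcls : ∀ n, M ≤ mean (R^[n] (pois m)) → Cls C3 C8 (R^[n] (pois m)) := by
    intro n
    induction n with
    | zero =>
      intro h
      simp only [Function.iterate_zero, id_eq] at h ⊢
      rw [pm] at h
      have hm1 : 1 ≤ m := by linarith
      refine ⟨pAM, ?_, ?_, ?_⟩
      · rw [pv, pm]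
      · rw [pk, pm, abs_of_pos hm]; nlinarith
      · rw [pm]
        refine (p8 hm1).trans ?_
        have : 0 ≤ m ^ 4 := by positivity
        nlinarith
    | succ n ih =>
      intro h
      have h1 : M ≤ mean (R^[n] (pois m)) := h.trans (smono n)
      rw [itS]
      exact (hweak _ (ih h1) (hM0'.trans h1)).1
  have hclsS : ∀ n, M ≤ mean (R^[n] (pois m)) → Cls C3 C8 (R^[n + 1] (pois m)) := by
    intro n h
    rw [itS]
    exact (hweak _ (hcls n h) (hM0'.trans h)).1
  constructor
  · intro hMn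
    have hpos : 0 < mean (R^[n] (pois m)) := by linarith
    refine ⟨hcls n hMn, ?_, ?_⟩
    · have h1 := hww _ (hcls n hMn) (hM1'.trans hMn)
      have h2 : D1 / mean (R^[n] (pois m)) ≤ D / mean (R^[n] (pois m)) :=
        div_le_div_of_nonneg_right hD1' hpos.le
      linarith
    · intro j hj
      have hC : ∀ i ≤ n + 1, Cls C3 C8 (R^[i] (pois m)) := by
        intro i hi
        rcases Nat.eq_or_lt_of_le hi with h | h
        · rw [h]; exact hclsS n hMn
        · exact hcls i (hMn.trans (hanti (by omega)))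
      have key := hSEQ D M hDp.le hMD (n + 1 - j) (by omega)
        (fun i => mean (R^[j + i] (pois m)))
        (fun i => vr (R^[j + i] (pois m)) / mean (R^[j + i] (pois m)))
        (fun i hi => by
          have hc := hC (j + i) (by omega)
          have h1 := mean_nonneg' hc.toLaw
          have h2 := vr_nonneg' hc.toLaw
          exact ⟨div_nonneg h2 h1, div_le_one_of_le₀ hc.vr_le h1⟩)
        (fun i hi => hMn.trans (hanti (by omega)))
        (mean_nonneg' (sAM _).toLaw)
        (fun i hi => by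
          have hi' : M ≤ mean (R^[j + i] (pois m)) := hMn.trans (hanti (by omega))
          have h1 := (hweak _ (hC (j + i) (by omega)) (hM0'.trans hi')).2
          rw [← itS] at h1
          have h2 : D0 / mean (R^[j + i] (pois m)) ≤ D / mean (R^[j + i] (pois m)) :=
            div_le_div_of_nonneg_right hD0' (by linarith)
          exact h1.trans h2)
      have hcast : ((n + 1 - j : ℕ) : ℝ) = (n:ℝ) + 1 - j := by
        rw [Nat.cast_sub (by omega)]; push_cast; ring
      have hidx : j + (n + 1 - j) = n + 1 := by omega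
      simp only [add_zero, hidx, hcast] at key
      exact key
  · intro hlt
    have hex : ∃ n, mean (R^[n] (pois m)) < M := ⟨n, hlt⟩
    classical
    obtain ⟨n1, hn1, hmin⟩ : ∃ n1, mean (R^[n1] (pois m)) < M ∧
        ∀ k < n1, ¬ mean (R^[k] (pois m)) < M :=
      ⟨Nat.find hex, Nat.find_spec hex, fun k hk => Nat.find_min hex hk⟩
    have hn1n : n1 ≤ n := by
      by_contra h
      exact hmin n (by omega) hlt
    have hq1 : q2 (R^[n1] (pois m)) ≤ M ^ 2 + M := by
      have hnn := mean_nonneg' (sAM n1).toLaw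
      have hvm : vr (R^[n1] (pois m)) ≤ mean (R^[n1] (pois m)) := by
        rcases Nat.eq_zero_or_pos n1 with h | h
        · subst h
          simp only [Function.iterate_zero, id_eq]
          rw [pv, pm]
        · obtain ⟨k, rfl⟩ : ∃ k, n1 = k + 1 := ⟨n1 - 1, by omega⟩
          have := hmin k (by omega)
          push Not at this
          exact (hclsS k this).vr_le
      rw [q2_eq (sAM n1)]
      nlinarith
    obtain ⟨-, -, -, sq', -⟩ := hST _ (sAM n1) (s0 n1)
    have h2 := sq' (n - n1)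
    rw [← Function.iterate_add_apply, Nat.sub_add_cancel hn1n] at h2
    have hnn := mean_nonneg' (sAM n1).toLaw
    nlinarith

end Pool.Agent.Q146.MK
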