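import Pool.Agent.Q291.MK.Stm2
import Pool.Agent.Q146.MK.ORB

/-!
# Job SIG of project MK: the string tension at weak coupling
-/

namespace Pool.Agent.Q146.MK

open Pool.Agent.Q291.MK Filter Topology

lemma W_pois_ge {m : ℝ} (hm : 4 ≤ m) (ha : AM (pois m)) : 1 / 16 ≤ W (pois m) := by
  have h0 : 0 < pois m 0 := by unfold pois; simp [Real.exp_pos]
  have h1 : pois m 1 = m * pois m 0 := by unfold pois; simp; ring
  have hI1 : I 1 = 1 / 2 := by
    have := I_succ 0
    norm_num [I] at this ⊢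
  have hI0 : I 0 = 1 := rfl
  have hE : 3 * pois m 0 ≤ E (pois m) I := by
    have h2 : ∑ k ∈ ({0, 1} : Finset ℕ), pois m k * I k ≤ E (pois m) I :=
      (ha.summ PB.I).sum_le_tsum _ (fun k _ => mul_nonneg (ha.nn k) (I_pos k).le)
    rw [Finset.sum_pair (by norm_num), h1, hI1, hI0] at h2
    nlinarith
  have hEp : 0 < E (pois m) I := by linarith
  have pψ : PB (fun k : ℕ => if k = 0 then (1:ℝ) else 0) :=
    (PB.const 1).of_le fun k => by split_ifs <;> simp
  have hψ : E (pois m) (fun k : ℕ => if k = 0 then (1:ℝ) else 0) = pois m 0 := by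
    unfold E
    rw [tsum_eq_single 0 (fun k hk => by simp [hk])]
    simp
  have pφ : PB (fun k : ℕ => I k * ((k:ℝ) / (k + 3))) := by
    refine (PB.const 1).of_le fun k => ?_
    rw [abs_of_nonneg (by have := (I_pos k).le; positivity)]
    have h3 : (k:ℝ) / (k + 3) ≤ 1 := by
      rw [div_le_one (by positivity)]; linarith
    have h4 : (0:ℝ) ≤ (k:ℝ) / (k + 3) := by positivity
    have := I_le_one k
    have := (I_pos k).le
    nlinarith
  have hlow : E (pois m) (fun k : ℕ => 1 / 4 * (I k - if k = 0 then (1:ℝ) else 0)) ≤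
      E (pois m) (fun k : ℕ => I k * ((k:ℝ) / (k + 3))) := by
    refine ha.E_mono ((PB.const _).mul (PB.I.sub pψ)) pφ fun k => ?_
    rcases Nat.eq_zero_or_pos k with rfl | hk
    · simp [hI0]
    · rw [if_neg hk.ne', sub_zero]
      have h3 : (1:ℝ) / 4 ≤ (k:ℝ) / (k + 3) := by
        rw [div_le_div_iff₀ (by norm_num) (by positivity)]
        have : (1:ℝ) ≤ k := by exact_mod_cast hk
        linarith
      have := (I_pos k).le
      nlinarith
  rw [E_const_mul, ha.E_sub PB.I pψ, hψ] at hlow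
  unfold W
  rw [div_le_div_iff₀ (by norm_num) hEp]
  linarith

theorem t_SIG : P_RB → P_ST → P_ORB → P_POIS → P_SIG := by
  intro hR hST hO hP
  obtain ⟨C3, C8, M, D, Q, hC3, hC8, hD, hMD, hQ, horb⟩ := hO
  have hM10 : 10 ≤ M := by linarith
  obtain ⟨Q1, hQ1⟩ : ∃ Q1, Q1 = Q + M ^ 2 + M := ⟨_, rfl⟩
  have hQ1one : 1 ≤ Q1 := by nlinarith
  obtain ⟨N0, hN0⟩ : ∃ N0 : ℕ, 24 * Q1 * M ≤ N0 := exists_nat_ge _
  obtain ⟨K, hK1, hKD⟩ : ∃ K : ℝ, 1 ≤ K ∧ D ≤ K := ⟨max 1 D, le_max_left _ _, le_max_right _ _⟩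
  have hlogK : 0 ≤ Real.log K := Real.log_nonneg hK1
  have hlog2 : 1 / 2 < Real.log 2 := by have := Real.log_two_gt_d9; linarith
  have hlog2' : Real.log 2 < 1 := by have := Real.log_two_lt_d9; linarith
  obtain ⟨C2, hC2⟩ : ∃ C2, C2 = 2 + D + D * Real.log K := ⟨_, rfl⟩
  have hC2p : 0 ≤ C2 := by rw [hC2]; positivity
  obtain ⟨C1, hC1⟩ : ∃ C1, C1 = |Real.log (Real.log 16)| + |Real.log (Real.log 2)| + N0 * 2 :=
    ⟨_, rfl⟩
  have hC1p : 0 ≤ C1 := by rw [hC1]; positivity
  have hL : 0 ≤ Real.log (2 + C2) := Real.log_nonneg (by linarith)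
  obtain ⟨C4, hC4⟩ : ∃ C4, C4 = M + 2 + D + D * (2 * Real.log (2 + C2) + 1) := ⟨_, rfl⟩
  have hC4p : 0 ≤ C4 := by rw [hC4]; positivity
  refine ⟨2 * C1 + 2 * C4, ?_⟩
  intro β σ hβ hσ
  have hlogβ : 1 / 2 < Real.log β :=
    hlog2.trans_le (Real.log_le_log (by norm_num) hβ)
  have hm : 0 < 2 * β := by linarith
  obtain ⟨pAM, pm, -, -, -, -⟩ := hP (2 * β) hm.le
  have p0 : pois (2 * β) 0 < 1 := pois_zero_lt hm
  have itS : ∀ n, R^[n + 1] (pois (2 * β)) = R (R^[n] (pois (2 * β))) :=
    fun n => Function.iterate_succ_apply' R n _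
  obtain ⟨sAM, s0, smono, sq, sW, stend, -, σ', hσ'p, hσ't, hσ'le, hσ'ge⟩ := hST _ pAM p0
  have hσσ : σ = σ' := tendsto_nhds_unique hσ hσ't
  subst hσσ
  have hanti : Antitone (fun n => mean (R^[n] (pois (2 * β)))) := antitone_nat_of_succ_le smono
  have hex : ∃ n, mean (R^[n] (pois (2 * β))) < M :=
    (stend.eventually_lt_const (show (0:ℝ) < M by linarith)).exists
  classical
  obtain ⟨n1, hn1, hmin⟩ : ∃ n1, mean (R^[n1] (pois (2 * β))) < M ∧
      ∀ k < n1, ¬ mean (R^[k] (pois (2 * β))) < M :=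
    ⟨Nat.find hex, Nat.find_spec hex, fun k hk => Nat.find_min hex hk⟩
  have hnn := mean_nonneg' (sAM n1).toLaw
  -- lower bound for the Wilson loop at scale n1
  have hW16 : 1 / 16 ≤ W (R^[n1] (pois (2 * β))) := by
    rcases Nat.eq_zero_or_pos n1 with h | h
    · subst h
      exact W_pois_ge (by linarith) pAM
    · obtain ⟨k, rfl⟩ : ∃ k, n1 = k + 1 := ⟨n1 - 1, by omega⟩
      have hk := hmin k (by omega)
      push Not at hk
      have h1 := ((horb (2 * β) hm k).1 hk).2.1
      have h2 : D / mean (R^[k] (pois (2 * β))) ≤ 1 / 2 := by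
        rw [div_le_div_iff₀ (by linarith) (by norm_num)]
        linarith
      have h3 : 1 / 2 ≤ W (R^[k] (pois (2 * β))) := by linarith
      have h4 := (hR _ (sAM k)).2.2.2.2.1
      rw [← itS] at h4
      have h5 : (1 / 2 : ℝ) ^ 4 ≤ W (R^[k] (pois (2 * β))) ^ 4 :=
        pow_le_pow_left₀ (by norm_num) h3 4
      have h6 : (1 / 2 : ℝ) ^ 4 = 1 / 16 := by norm_num
      rw [h6] at h5
      exact h5.trans h4
  have h4n : (0:ℝ) < 4 ^ n1 := by positivity
  have hlog4 : Real.log 4 = 2 * Real.log 2 := by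
    rw [show (4:ℝ) = 2 ^ 2 by norm_num, Real.log_pow]; push_cast; ring
  have hlog16 : 0 < Real.log 16 := Real.log_pos (by norm_num)
  -- upper bound for σ
  have hup : Real.log σ + 2 * Real.log 2 * n1 ≤ |Real.log (Real.log 16)| := by
    have h1 := hσ'le n1
    have h2 : -Real.log (W (R^[n1] (pois (2 * β)))) ≤ Real.log 16 := by
      have h3 := Real.log_le_log (by norm_num) hW16
      rw [one_div, Real.log_inv] at h3
      linarith
    have h3 : σ ≤ Real.log 16 / 4 ^ n1 := h1.trans (div_le_div_of_nonneg_right h2 h4n.le)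
    have h4 := Real.log_le_log hσ'p h3
    rw [Real.log_div hlog16.ne' h4n.ne', Real.log_pow, hlog4] at h4
    have h5 := le_abs_self (Real.log (Real.log 16))
    linarith
  -- lower bound for σ
  have hlo : -(|Real.log (Real.log 2)| + N0 * 2) ≤ Real.log σ + 2 * Real.log 2 * n1 := by
    obtain ⟨-, -, -, -, -, -, thalf, -⟩ := hST _ (sAM n1) (s0 n1)
    have hq := (horb (2 * β) hm n1).2 hn1
    have h1 := thalf Q1 hQ1one (by nlinarith) N0 (by
      refine le_trans ?_ hN0
      exact mul_le_mul_of_nonneg_left hn1.le (by linarith))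
    rw [← Function.iterate_add_apply] at h1
    have h2 := hσ'ge _ h1
    have h3 := Real.log_le_log (by positivity) h2
    have h4N : (0:ℝ) < 4 ^ (N0 + n1) := by positivity
    rw [Real.log_div (by linarith) h4N.ne', Real.log_pow, hlog4] at h3
    push_cast at h3
    have h5 := neg_abs_le (Real.log (Real.log 2))
    have h6 : (0:ℝ) ≤ N0 := Nat.cast_nonneg _
    nlinarith
  have hmain1 : |Real.log σ + 2 * Real.log 2 * n1| ≤ C1 := by
    rw [abs_le, hC1]
    have h1 := abs_nonneg (Real.log (Real.log 2))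
    have h2 := abs_nonneg (Real.log (Real.log 16))
    have h6 : (0:ℝ) ≤ N0 := Nat.cast_nonneg _
    constructor <;> linarith
  -- n1 and β
  have hmain2 : |β - n1| ≤ C4 * Real.log β := by
    rcases Nat.eq_zero_or_pos n1 with h | h
    · subst h
      simp only [Function.iterate_zero, id_eq] at hn1
      rw [pm] at hn1
      rw [Nat.cast_zero, sub_zero, abs_of_pos (by linarith)]
      have h1 : M ≤ C4 := by
        rw [hC4]
        have : 0 ≤ D * (2 * Real.log (2 + C2) + 1) := by positivity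
        linarith
      nlinarith
    · obtain ⟨k, rfl⟩ : ∃ k, n1 = k + 1 := ⟨n1 - 1, by omega⟩
      have hk := hmin k (by omega)
      push Not at hk
      have h1 := ((horb (2 * β) hm k).1 hk).2.2 0 (Nat.zero_le _)
      simp only [Function.iterate_zero, id_eq, Nat.cast_zero, sub_zero] at h1
      rw [pm] at h1
      have hkp : (0:ℝ) < (k:ℝ) + 1 := by positivity
      obtain ⟨x, hx⟩ : ∃ x : ℝ, x = (k:ℝ) + 1 := ⟨_, rfl⟩
      rw [← hx] at h1 hkp
      have hx1 : 1 ≤ x := by rw [hx]; have : (0:ℝ) ≤ k := Nat.cast_nonneg k; linarith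
      have hlx0 : 0 ≤ Real.log x := Real.log_nonneg hx1
      have h2 : Real.log x ≤ x / K + Real.log K := by
        have h3 := Real.log_le_sub_one_of_pos (show 0 < x / K by positivity)
        rw [Real.log_div hkp.ne' (by linarith)] at h3
        linarith
      have h3 : D * Real.log x ≤ x + D * Real.log K := by
        have h4 : D * (x / K) ≤ x := by
          rw [mul_div_assoc', div_le_iff₀ (by linarith)]
          nlinarith
        nlinarith
      have h4 := abs_le.1 h1
      have h5 : x ≤ 2 * β + C2 := by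
        rw [hC2]
        nlinarith [h4.1]
      have h6 : x ≤ (2 + C2) * β := by nlinarith
      have h7 : Real.log x ≤ Real.log (2 + C2) + Real.log β := by
        rw [← Real.log_mul (by linarith) (by linarith)]
        exact Real.log_le_log hkp h6
      have h8 : Real.log x ≤ (2 * Real.log (2 + C2) + 1) * Real.log β := by nlinarith
      have h9 : |2 * β - 2 * x| ≤ M + 2 + D * (1 + Real.log x) := by
        rw [abs_le]
        constructor
        · linarith [h4.1]
        · linarith [h4.2]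
      have h10 : |β - x| ≤ M + 2 + D * (1 + Real.log x) := by
        have : |2 * β - 2 * x| = 2 * |β - x| := by
          rw [← mul_sub, abs_mul, abs_of_pos (by norm_num : (0:ℝ) < 2)]
        rw [this] at h9
        have := abs_nonneg (β - x)
        have h11 : 0 ≤ M + 2 + D * (1 + Real.log x) := by positivity
        linarith
      have h12 : ((k + 1 : ℕ) : ℝ) = x := by rw [hx]; push_cast; ring
      rw [h12]
      -- halved constant
      have h13 : |β - x| ≤ (M + 2 + D * (1 + Real.log x)) / 2 := by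
        have : |2 * β - 2 * x| = 2 * |β - x| := by
          rw [← mul_sub, abs_mul, abs_of_pos (by norm_num : (0:ℝ) < 2)]
        rw [this] at h9
        linarith
      rw [hC4]
      have h14 : D * Real.log x ≤ D * ((2 * Real.log (2 + C2) + 1) * Real.log β) :=
        mul_le_mul_of_nonneg_left h8 hD.le
      have h15 : (M + 2 + D) / 2 ≤ (M + 2 + D) * Real.log β := by nlinarith
      have h16 : 0 ≤ D * Real.log x := by positivity
      nlinarith
  have hfin : Real.log σ + 2 * Real.log 2 * β =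
      (Real.log σ + 2 * Real.log 2 * n1) + 2 * Real.log 2 * (β - n1) := by ring
  rw [hfin]
  refine (abs_add_le _ _).trans ?_
  rw [abs_mul, abs_of_pos (show 0 < 2 * Real.log 2 by linarith)]
  have h17 : C1 ≤ 2 * C1 * Real.log β := by nlinarith
  have h18 : 2 * Real.log 2 * |β - n1| ≤ 2 * (C4 * Real.log β) := by
    have := abs_nonneg (β - (n1:ℝ))
    nlinarith
  nlinarith

end Pool.Agent.Q146.MK
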