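import Pool.Agent.Q291.MK.Stm2
import Pool.Agent.Q146.MK.RB

/-!
# Job ST of project MK: iterates, at every coupling
-/

namespace Pool.Agent.Q146.MK

open Pool.Agent.Q291.MK Filter Topology

theorem t_ST : P_CRUDE → P_WL → P_RB → P_ST := by
  intro hC hW hR a ha ha0
  have itS : ∀ n, R^[n + 1] a = R (R^[n] a) := fun n => Function.iterate_succ_apply' R n a
  have hAM : ∀ n, AM (R^[n] a) := by
    intro n
    induction n with
    | zero => exact ha
    | succ n ih => rw [itS]; exact (hR _ ih).1
  have h0 : ∀ n, (R^[n] a) 0 < 1 := by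
    intro n
    induction n with
    | zero => exact ha0
    | succ n ih => rw [itS]; exact (hR _ (hAM n)).2.2.2.2.2 ih
  have hnn : ∀ n, 0 ≤ mean (R^[n] a) := fun n => (hC _ (hAM n)).1
  have hstep : ∀ n, mean (R^[n + 1] a) ≤ mean (R^[n] a) - (1 - (R^[n] a) 0) / 6 := by
    intro n; rw [itS]; exact (hR _ (hAM n)).2.1
  have hmono : ∀ n, mean (R^[n + 1] a) ≤ mean (R^[n] a) := by
    intro n
    have h1 := hstep n
    have h2 := (h0 n).le
    linarith
  have hanti : Antitone (fun n => mean (R^[n] a)) := antitone_nat_of_succ_le hmono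
  have hle0 : ∀ n, mean (R^[n] a) ≤ mean a := fun n => hanti (Nat.zero_le n)
  have hμ : 0 ≤ mean a := (hC a ha).1
  have hq0 : 0 ≤ q2 a := (hC a ha).2.1
  have hq : ∀ n, q2 (R^[n] a) ≤ q2 a + mean a ^ 2 + mean a := by
    intro n
    induction n with
    | zero =>
      have : 0 ≤ mean a ^ 2 := sq_nonneg _
      simp only [Function.iterate_zero, id_eq]
      linarith
    | succ n ih =>
      rw [itS]
      have h1 := (hR _ (hAM n)).2.2.2.1
      have h2 := hle0 n
      have h3 := hnn n
      have h4 : mean (R^[n] a) ^ 2 ≤ mean a ^ 2 := pow_le_pow_left₀ h3 h2 2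
      nlinarith
  have hWp : ∀ n, 0 < W (R^[n] a) ∧ W (R^[n] a) < 1 := fun n =>
    ⟨(hW _ (hAM n)).2.2.2.2.2 (h0 n), (hW _ (hAM n)).2.1⟩
  have hsq : ∀ n, mean (R^[n] a) ^ 2 ≤ (1 - (R^[n] a) 0) * (q2 a + mean a ^ 2 + mean a) := by
    intro n
    have h1 := (hC _ (hAM n)).2.2.1
    have h2 := mul_le_mul_of_nonneg_left (hq n) (sub_nonneg.2 (h0 n).le)
    linarith
  have htend : Tendsto (fun n => mean (R^[n] a)) atTop (𝓝 0) := by
    have hs : Summable (fun n => (1 - (R^[n] a) 0) / 6) := by
      refine summable_of_sum_range_le (c := mean a) (fun n => ?_) (fun n => ?_)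
      · have := (h0 n).le; linarith
      · have : ∀ N, ∑ i ∈ Finset.range N, (1 - (R^[i] a) 0) / 6 ≤ mean a - mean (R^[N] a) := by
          intro N
          induction N with
          | zero => simp
          | succ N ih =>
            rw [Finset.sum_range_succ]
            have := hstep N
            linarith
        have h1 := this n
        have h2 := hnn n
        linarith
    have ht := hs.tendsto_atTop_zero
    have ht2 : Tendsto (fun n => mean (R^[n] a) ^ 2) atTop (𝓝 0) := by
      have h1 : Tendsto (fun n => (1 - (R^[n] a) 0) / 6 * (6 * (q2 a + mean a ^ 2 + mean a)))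
          atTop (𝓝 (0 * (6 * (q2 a + mean a ^ 2 + mean a)))) := ht.mul_const _
      rw [zero_mul] at h1
      refine squeeze_zero (fun n => sq_nonneg _) (fun n => ?_) h1
      have := hsq n
      calc _ ≤ _ := this
        _ = _ := by ring
    have ht3 := ht2.sqrt
    rw [Real.sqrt_zero] at ht3
    refine ht3.congr fun n => Real.sqrt_sq (hnn n)
  refine ⟨hAM, h0, hmono, hq, hWp, htend, ?_, ?_⟩
  · intro Q hQ1 hQ n hn
    by_contra hcon
    push Not at hcon
    have hbig : ∀ i ≤ n, 1 / 2 < mean (R^[i] a) := fun i hi => hcon.trans_le (hanti hi)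
    have hQp : 0 < Q := by linarith
    have hdec : ∀ i ≤ n, mean (R^[i] a) ≤ mean a - i / (24 * Q) := by
      intro i
      induction i with
      | zero => intro _; simp
      | succ i ih =>
        intro hi
        have h1 := ih (by omega)
        have h2 := hbig i (by omega)
        have h3 := hstep i
        have h4 : (1 : ℝ) / 4 ≤ (1 - (R^[i] a) 0) * Q := by
          have h5 := hsq i
          have h6 := mul_le_mul_of_nonneg_left hQ (sub_nonneg.2 (h0 i).le)
          nlinarith
        have h5 : 1 / (4 * Q) ≤ 1 - (R^[i] a) 0 := by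
          rw [div_le_iff₀ (by positivity)]
          linarith
        have h6 : 1 / (4 * Q) / 6 = 1 / (24 * Q) := by
          rw [div_div]; ring_nf
        push_cast
        rw [add_div]
        linarith
    have h1 := hdec n le_rfl
    have h2 : mean a ≤ n / (24 * Q) := by
      rw [le_div_iff₀ (by positivity)]
      linarith
    linarith
  · have hWstep : ∀ n, W (R^[n] a) ^ 4 ≤ W (R^[n + 1] a) := by
      intro n; rw [itS]; exact (hR _ (hAM n)).2.2.2.2.1
    have hsa : Antitone (fun n : ℕ => -Real.log (W (R^[n] a)) / 4 ^ n) := by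
      refine antitone_nat_of_succ_le fun n => ?_
      have h1 := Real.log_le_log (by have := (hWp n).1; positivity) (hWstep n)
      rw [Real.log_pow] at h1
      push_cast at h1
      rw [div_le_div_iff₀ (by positivity) (by positivity), pow_succ]
      have h4 : (0:ℝ) < 4 ^ n := by positivity
      nlinarith
    have hs0 : ∀ n : ℕ, 0 ≤ -Real.log (W (R^[n] a)) / 4 ^ n := by
      intro n
      have h1 := Real.log_nonpos (hWp n).1.le (hWp n).2.le
      exact div_nonneg (by linarith) (by positivity)
    have hbdd : BddBelow (Set.range (fun n : ℕ => -Real.log (W (R^[n] a)) / 4 ^ n)) :=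
      ⟨0, by rintro _ ⟨n, rfl⟩; exact hs0 n⟩
    have hlim := tendsto_atTop_ciInf hsa hbdd
    have hlow : ∀ n : ℕ, mean (R^[n] a) ≤ 1 / 2 →
        Real.log 2 / 4 ^ n ≤ ⨅ n : ℕ, -Real.log (W (R^[n] a)) / 4 ^ n := by
      intro n hn
      have hm : ∀ k : ℕ, mean (R^[n + k] a) ≤ (1 / 2 : ℝ) ^ (4 ^ k) := by
        intro k
        induction k with
        | zero => simpa using hn
        | succ k ih =>
          rw [← add_assoc, itS]
          have h1 := (hR _ (hAM (n + k))).2.2.1
          have h2 := hnn (n + k)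
          have h3 : mean (R^[n + k] a) ^ 4 ≤ ((1 / 2 : ℝ) ^ (4 ^ k)) ^ 4 :=
            pow_le_pow_left₀ h2 ih 4
          have h4 : ((1 / 2 : ℝ) ^ (4 ^ k)) ^ 4 = (1 / 2 : ℝ) ^ (4 ^ (k + 1)) := by
            rw [← pow_mul, ← pow_succ]
          have h5 : 0 ≤ mean (R^[n + k] a) ^ 4 := by positivity
          rw [← h4]
          linarith
      have hk : ∀ k : ℕ, Real.log 2 / 4 ^ n ≤ -Real.log (W (R^[n + k] a)) / 4 ^ (n + k) := by
        intro k
        have h1 : W (R^[n + k] a) ≤ (1 / 2 : ℝ) ^ (4 ^ k) := by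
          have h2 := (hW _ (hAM (n + k))).2.2.1
          have h3 := hnn (n + k)
          have := hm k
          linarith
        have h2 := Real.log_le_log (hWp (n + k)).1 h1
        rw [Real.log_pow, one_div, Real.log_inv] at h2
        push_cast at h2
        rw [div_le_div_iff₀ (by positivity) (by positivity), pow_add]
        have h4 : (0:ℝ) < 4 ^ n := by positivity
        nlinarith
      refine ge_of_tendsto hlim ?_
      filter_upwards [eventually_ge_atTop n] with j hj
      obtain ⟨k, rfl⟩ := Nat.exists_eq_add_of_le hj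
      exact hk k
    refine ⟨⨅ n : ℕ, -Real.log (W (R^[n] a)) / 4 ^ n, ?_, hlim, fun n => ciInf_le hbdd n, hlow⟩
    obtain ⟨n, hn⟩ := (htend.eventually_le_const (show (0:ℝ) < 1 / 2 by norm_num)).exists
    refine lt_of_lt_of_le ?_ (hlow n hn)
    have := Real.log_pos (show (1:ℝ) < 2 by norm_num)
    positivity

end Pool.Agent.Q146.MK
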